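import Pool.Agent.D0H90.SM.Stm3

set_option autoImplicit false

/-!
# Project SM, module DESC (MP_807a54_ag): descent of semi-invariant integral elements
-/

namespace Pool.Agent.D0H16.SM

open MvPolynomial Matrix Pool.Agent.D0H90.SM

universe u v w

/-! ## Automorphisms of algebraically closed fields -/

/-- An automorphism of a subfield extends to an algebraically closed field. -/
theorem exists_extension {E : Type u} {Ω : Type v} [Field E] [Field Ω] [Algebra E Ω]
    [IsAlgClosed Ω] (τ : E ≃+* E) :
    ∃ σ : Ω ≃+* Ω, ∀ x : E, σ (algebraMap E Ω x) = algebraMap E Ω (τ x) := by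
  obtain ⟨ι, v, hv⟩ := exists_isTranscendenceBasis' E Ω
  let _ := IsAlgClosed.isAlgClosure_of_transcendence_basis v hv
  let e : Algebra.adjoin E (Set.range v) ≃+* Algebra.adjoin E (Set.range v) :=
    (hv.1.aevalEquiv.symm.toRingEquiv.trans (MvPolynomial.mapEquiv ι τ)).trans
      hv.1.aevalEquiv.toRingEquiv
  refine ⟨IsAlgClosure.equivOfEquiv Ω Ω e, fun x => ?_⟩
  have he : e (algebraMap E _ x) = algebraMap E _ (τ x) := by
    change hv.1.aevalEquiv (MvPolynomial.mapEquiv ι τ (hv.1.aevalEquiv.symm (algebraMap E _ x))) = _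
    rw [AlgEquiv.commutes, MvPolynomial.algebraMap_eq, MvPolynomial.mapEquiv_apply,
      MvPolynomial.map_C, ← MvPolynomial.algebraMap_eq, AlgEquiv.commutes]
    rfl
  rw [IsScalarTower.algebraMap_apply E (Algebra.adjoin E (Set.range v)) Ω,
    IsAlgClosure.equivOfEquiv_algebraMap, he,
    ← IsScalarTower.algebraMap_apply E (Algebra.adjoin E (Set.range v)) Ω]

/-- Galois descent inside an algebraically closed field (characteristic 0). -/
theorem mem_range_of_fixed {K : Type u} {Ω : Type v} [Field K] [Field Ω] [Algebra K Ω]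
    [IsAlgClosed Ω] [CharZero K] (a : Ω) (ha : IsAlgebraic K a)
    (h : ∀ σ : Ω ≃+* Ω, (∀ x : K, σ (algebraMap K Ω x) = algebraMap K Ω x) → σ a = a) :
    ∃ x : K, algebraMap K Ω x = a := by
  let E := algebraicClosure K Ω
  have : IsAlgClosure K E := inferInstance
  have : IsAlgClosed E := IsAlgClosure.isAlgClosed K
  have : Algebra.IsAlgebraic K E := IsAlgClosure.isAlgebraic
  have : IsGalois K E := IsAlgClosure.isGalois K E
  have haE : a ∈ E := (mem_algebraicClosure_iff).2 ha
  have hb : (⟨a, haE⟩ : E) ∈ (⊥ : IntermediateField K E) := by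
    rw [InfiniteGalois.mem_bot_iff_fixed]
    intro τ
    obtain ⟨σ, hσ⟩ := exists_extension (Ω := Ω) τ.toRingEquiv
    have h1 := h σ (fun x => by
      rw [IsScalarTower.algebraMap_apply K E Ω, hσ]
      congr 1
      exact τ.commutes x)
    have h2 := hσ ⟨a, haE⟩
    apply Subtype.ext
    exact h2.symm.trans h1
  obtain ⟨x, hx⟩ := IntermediateField.mem_bot.1 hb
  refine ⟨x, ?_⟩
  have := congrArg (fun z : E => (z : Ω)) hx
  exact this

/-! ## The local rings -/

section

variable {n d : ℕ} {k : Type u} [Field k]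

/-- `θ` with values in `OM` as a ring homomorphism. -/
noncomputable def ph (c : Cf n d → k) : Pol n d k →+* OM n d k :=
  (algebraMap (LL n d k) (OM n d k)).comp (theta c : Pol n d k →+* LL n d k)

theorem ph_apply (c : Cf n d → k) (P : Pol n d k) : ph c P = thetaO c P := rfl

theorem ph_C (c : Cf n d → k) (t : k) : ph c (C t) = algebraMap k (OM n d k) t := by
  have h1 : theta c (C t) = algebraMap k (LL n d k) t := by
    rw [theta, aeval_C]
  change algebraMap (LL n d k) (OM n d k) (theta c (C t)) = _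
  rw [h1, ← IsScalarTower.algebraMap_apply]

theorem ph_X (c : Cf n d → k) (a : Cf n d) : ph c (X a) = genf c a := by
  change algebraMap (LL n d k) (OM n d k) (theta c (X a)) = _
  rw [theta, aeval_X]
  rfl

/-- The elements of the local ring are fractions. -/
theorem mem_Ov {c v : Cf n d → k} (hc : Function.Injective (ph c)) {x : OM n d k}
    (hx : x ∈ Ov c v) : ∃ P D : Pol n d k, eval v D ≠ 0 ∧ ph c D * x = ph c P := by
  induction hx using Subring.closure_induction with
  | mem x hx =>
    rcases hx with ⟨P, rfl⟩ | ⟨Q, hQ, rfl⟩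
    · exact ⟨P, 1, by simp, by rw [map_one, one_mul, ph_apply]⟩
    · refine ⟨1, Q, hQ, ?_⟩
      have hQ0 : Q ≠ 0 := by
        rintro rfl
        exact hQ (map_zero _)
      have : ph c Q ≠ 0 := fun h => hQ0 (hc (h.trans (map_zero _).symm))
      rw [← ph_apply, mul_inv_cancel₀ this, map_one]
  | zero => exact ⟨0, 1, by simp, by simp⟩
  | one => exact ⟨1, 1, by simp, by simp⟩
  | add x y _ _ hx hy =>
    obtain ⟨P, D, hD, h1⟩ := hx
    obtain ⟨P', D', hD', h2⟩ := hy
    refine ⟨P * D' + D * P', D * D', by rw [map_mul]; exact mul_ne_zero hD hD', ?_⟩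
    rw [map_add, map_mul, map_mul, map_mul, ← h1, ← h2]
    ring
  | neg x _ hx =>
    obtain ⟨P, D, hD, h1⟩ := hx
    exact ⟨-P, D, hD, by rw [map_neg, ← h1]; ring⟩
  | mul x y _ _ hx hy =>
    obtain ⟨P, D, hD, h1⟩ := hx
    obtain ⟨P', D', hD', h2⟩ := hy
    refine ⟨P * P', D * D', by rw [map_mul]; exact mul_ne_zero hD hD', ?_⟩
    rw [map_mul, map_mul, ← h1, ← h2]
    ring

/-- Common denominators. -/
theorem common_den {c v : Cf n d → k} (hc : Function.Injective (ph c)) (s : Finset ℕ)
    (f : ℕ → OM n d k) (hf : ∀ i, f i ∈ Ov c v) :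
    ∃ D : Pol n d k, eval v D ≠ 0 ∧ ∀ i ∈ s, ∃ P, ph c D * f i = ph c P := by
  induction s using Finset.induction_on with
  | empty => exact ⟨1, by simp, by simp⟩
  | insert j s hj ih =>
    obtain ⟨D, hD, h⟩ := ih
    obtain ⟨P', D', hD', h'⟩ := mem_Ov hc (hf j)
    refine ⟨D * D', by rw [map_mul]; exact mul_ne_zero hD hD', ?_⟩
    intro i hi
    rcases Finset.mem_insert.1 hi with rfl | hi
    · exact ⟨D * P', by rw [map_mul, map_mul, ← h']; ring⟩
    · obtain ⟨P, hP⟩ := h i hi
      exact ⟨D' * P, by rw [map_mul, map_mul, ← hP]; ring⟩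

/-- An element which is integral over the local ring at `v` is a root of a polynomial over `k[V]`
whose leading coefficient does not vanish at `v`. -/
theorem exists_poly {c v : Cf n d → k} (hc : Function.Injective (ph c)) {a : OM n d k}
    (ha : IsIntegral (Ov c v) a) :
    ∃ q : Polynomial (Pol n d k), eval v q.leadingCoeff ≠ 0 ∧ q.eval₂ (ph c) a = 0 := by
  obtain ⟨p, hp, hroot⟩ := ha
  obtain ⟨D, hD, h⟩ := common_den hc (Finset.range (p.natDegree + 1))
    (fun i => ((p.coeff i : Ov c v) : OM n d k)) (fun i => (p.coeff i).2)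
  have h' : ∀ i, ∃ P, i ∈ Finset.range (p.natDegree + 1) →
      ph c D * ((p.coeff i : Ov c v) : OM n d k) = ph c P := by
    intro i
    by_cases hi : i ∈ Finset.range (p.natDegree + 1)
    · obtain ⟨P, hP⟩ := h i hi
      exact ⟨P, fun _ => hP⟩
    · exact ⟨0, fun h => absurd h hi⟩
  choose r hr using h'
  let q : Polynomial (Pol n d k) := ∑ i ∈ Finset.range (p.natDegree + 1), Polynomial.monomial i (r i)
  have hcoeff : ∀ j, q.coeff j = if j ∈ Finset.range (p.natDegree + 1) then r j else 0 := by
    intro j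
    simp only [q, Polynomial.finsetSum_coeff, Polynomial.coeff_monomial]
    rw [Finset.sum_ite_eq' ]
  have hrm : r p.natDegree = D := by
    apply hc
    rw [← hr p.natDegree (Finset.mem_range.2 (Nat.lt_succ_self _))]
    have : p.coeff p.natDegree = 1 := hp
    rw [this]
    simp
  have hD0 : D ≠ 0 := by
    rintro rfl
    exact hD (map_zero _)
  have hdeg : q.natDegree = p.natDegree := by
    apply le_antisymm
    · rw [Polynomial.natDegree_le_iff_coeff_eq_zero]
      intro N hN
      rw [hcoeff, if_neg]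
      simp only [Finset.mem_range]
      omega
    · apply Polynomial.le_natDegree_of_ne_zero
      rw [hcoeff, if_pos (Finset.mem_range.2 (Nat.lt_succ_self _)), hrm]
      exact hD0
  refine ⟨q, ?_, ?_⟩
  · rw [Polynomial.leadingCoeff, hdeg, hcoeff, if_pos (Finset.mem_range.2 (Nat.lt_succ_self _)),
      hrm]
    exact hD
  · simp only [q, Polynomial.eval₂_finsetSum, Polynomial.eval₂_monomial]
    rw [Finset.sum_congr rfl (fun i hi => by rw [← hr i hi])]
    simp only [mul_assoc]
    rw [← Finset.mul_sum]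
    rw [Polynomial.eval₂_eq_sum_range] at hroot
    have : ∑ i ∈ Finset.range (p.natDegree + 1), ((p.coeff i : Ov c v) : OM n d k) * a ^ i = 0 :=
      hroot
    rw [this, mul_zero]

/-- The map `P ↦ P(f^A)`. -/
noncomputable def cmap (A A' : Matrix (Fin n) (Fin n) k) : Pol n d k →+* Pol n d k :=
  (aeval (conj (A.map C) (A'.map C) (fun a => (X a : Pol n d k))) : Pol n d k →ₐ[k] Pol n d k)

theorem cmap_C (A A' : Matrix (Fin n) (Fin n) k) (t : k) :
    cmap A A' (C t : Pol n d k) = C t := by
  change (aeval _ (C t : Pol n d k) : Pol n d k) = _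
  rw [aeval_C]
  rfl

theorem cmap_X (A A' : Matrix (Fin n) (Fin n) k) (a : Cf n d) :
    cmap A A' (X a : Pol n d k) =
      conj (A.map C) (A'.map C) (fun a => (X a : Pol n d k)) a := by
  change (aeval _ (X a : Pol n d k) : Pol n d k) = _
  rw [aeval_X]

theorem eval_cmap (hB : S_BASE.{u}) (A A' : Matrix (Fin n) (Fin n) k) (c : Cf n d → k)
    (P : Pol n d k) : eval c (cmap A A' P) = eval (conj A A' c) P := by
  obtain ⟨_, _, _, _, h5, _⟩ := hB
  have : (eval c).comp (cmap A A') = eval (conj A A' c) := by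
    apply MvPolynomial.ringHom_ext
    · intro t
      rw [RingHom.comp_apply, cmap_C, eval_C, eval_C]
    · intro a
      rw [RingHom.comp_apply, cmap_X, eval_X]
      have h := congrFun (h5 (Pol n d k) k (eval c) n d (fun a => X a) (A.map C) (A'.map C)) a
      rw [← h]
      congr 1
      · ext i j; simp
      · ext i j; simp
      · funext b; simp
  exact congrFun (congrArg DFunLike.coe this) P

theorem sigma_ph (hB : S_BASE.{u}) (c : Cf n d → k) (A A' : Matrix (Fin n) (Fin n) k)
    (σ : OM n d k ≃+* OM n d k) (hσ : SymA c A A' σ) (P : Pol n d k) :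
    σ (ph c P) = ph c (cmap A A' P) := by
  obtain ⟨_, _, _, _, h5, _⟩ := hB
  have : (σ : OM n d k →+* OM n d k).comp (ph c) = (ph c).comp (cmap A A') := by
    apply MvPolynomial.ringHom_ext
    · intro t
      rw [RingHom.comp_apply, RingHom.comp_apply, cmap_C, ph_C]
      exact hσ.1 t
    · intro a
      rw [RingHom.comp_apply, RingHom.comp_apply, cmap_X, ph_X]
      refine (hσ.2 a).trans ?_
      have h := congrFun (h5 (Pol n d k) (OM n d k) (ph c) n d (fun a => X a) (A.map C)
        (A'.map C)) a
      rw [← h]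
      congr 1
      · ext i j; simp [ph_C]
      · ext i j; simp [ph_C]
      · funext b; rw [ph_X]
  exact congrFun (congrArg DFunLike.coe this) P

theorem conj_one (hB : S_BASE.{u}) {K : Type u} [Field K] [Infinite K] (c : Cf n d → K) :
    conj 1 1 c = c := by
  obtain ⟨h1, h2, _⟩ := hB
  apply h2 K n d
  intro x
  rw [h1 K n d c 1 1 x, Matrix.one_mulVec, Matrix.one_mulVec]

end

/-- DESC. -/
theorem t_DESC : S_BASE.{u} → S_THETA.{u} → S_EXTB.{u} → S_DESC.{u} := by
  intro hB hT hE k _ _ _ n d hd c hc v1 v2 b a ha hi1 hi2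
  have hinj : Function.Injective (ph c) :=
    (algebraMap (LL n d k) (OM n d k)).injective.comp (hT k n d hd c hc)
  have : CharZero (OM n d k) :=
    charZero_of_injective_algebraMap (algebraMap k (OM n d k)).injective
  -- the field of rational functions on `V`
  let ψ : Rat n d k →+* OM n d k := IsFractionRing.lift hinj
  have hψ : ∀ P : Pol n d k, ψ (algebraMap (Pol n d k) (Rat n d k) P) = ph c P :=
    fun P => IsFractionRing.lift_algebraMap hinj P
  let alg : Algebra (Rat n d k) (OM n d k) := ψ.toAlgebra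
  obtain ⟨q1, hq1, hr1⟩ := exists_poly hinj hi1
  obtain ⟨q2, hq2, hr2⟩ := exists_poly hinj hi2
  have : CharZero (Rat n d k) :=
    charZero_of_injective_algebraMap (algebraMap k (Rat n d k)).injective
  obtain ⟨x, hx⟩ : ∃ x : Rat n d k, ψ x = a := by
    refine @mem_range_of_fixed (Rat n d k) (OM n d k) _ _ alg _ _ a ?_ ?_
    · refine ⟨q1.map (algebraMap (Pol n d k) (Rat n d k)), ?_, ?_⟩
      · intro h0
        have : q1 = 0 := by
          apply Polynomial.map_injective _ (IsFractionRing.injective (Pol n d k) (Rat n d k))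
          rw [h0, Polynomial.map_zero]
        apply hq1
        rw [this, Polynomial.leadingCoeff_zero, map_zero]
      · change Polynomial.eval₂ ψ a (q1.map (algebraMap (Pol n d k) (Rat n d k))) = 0
        rw [Polynomial.eval₂_map]
        have : ψ.comp (algebraMap (Pol n d k) (Rat n d k)) = ph c := RingHom.ext hψ
        rw [this]
        exact hr1
    · intro σ hσ
      have hσ' : ∀ P : Pol n d k, σ (ph c P) = ph c P := by
        intro P
        rw [← hψ P]
        exact hσ _
      have hs : SymA c 1 1 σ := by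
        refine ⟨fun t => ?_, fun a => ?_⟩
        · rw [← ph_C c t]
          exact hσ' _
        · have h1 : (1 : Matrix (Fin n) (Fin n) k).map (algebraMap k (OM n d k)) = 1 := by
            ext i j
            simp [Matrix.one_apply, apply_ite]
          rw [h1, conj_one hB, ← ph_X]
          exact hσ' _
      have := ha 1 1 σ (by simp) hs
      simpa using this
  let P := IsFractionRing.num (Pol n d k) x
  let Q : Pol n d k := (IsFractionRing.den (Pol n d k) x : Pol n d k)
  have hPQ : x * algebraMap (Pol n d k) (Rat n d k) Q = algebraMap (Pol n d k) (Rat n d k) P := by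
    have h := IsFractionRing.mk'_num_den (Pol n d k) x
    exact (IsLocalization.eq_mk'_iff_mul_eq.1 h.symm)
  have haQ : a * ph c Q = ph c P := by
    rw [← hx, ← hψ, ← hψ, ← map_mul, hPQ]
  have hroot : ∀ q : Polynomial (Pol n d k), q.eval₂ (ph c) a = 0 → Q ∣ q.leadingCoeff := by
    intro q hq
    apply den_dvd_of_is_root (r := x)
    apply ψ.injective
    rw [Polynomial.aeval_def, Polynomial.hom_eval₂, map_zero]
    have : ψ.comp (algebraMap (Pol n d k) (Rat n d k)) = ph c := RingHom.ext hψ
    rw [this, hx]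
    exact hq
  have hev : ∀ (v : Cf n d → k) (L : Pol n d k), eval v L ≠ 0 → Q ∣ L → eval v Q ≠ 0 := by
    rintro v L hL ⟨M, rfl⟩ h
    apply hL
    rw [map_mul, h, zero_mul]
  refine ⟨P, Q, ?_, hev v1 _ hq1 (hroot q1 hr1), hev v2 _ hq2 (hroot q2 hr2), haQ⟩
  intro A A' hA cc
  obtain ⟨σ, hσ⟩ := hE k n d c A A' hA
  have h1 := ha A A' σ hA hσ
  have h2 : σ a * ph c (cmap A A' Q) = ph c (cmap A A' P) := by
    rw [← sigma_ph hB c A A' σ hσ, ← sigma_ph hB c A A' σ hσ, ← map_mul, haQ]
  have h3 : P * cmap A A' Q = C (A.det ^ b) * (cmap A A' P * Q) := by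
    apply hinj
    rw [map_mul, map_mul, map_mul, ph_C, map_pow, ← h2, ← haQ]
    linear_combination (ph c Q * ph c (cmap A A' Q)) * (-h1)
  have h4 := congrArg (eval cc) h3
  rw [map_mul, map_mul, map_mul, eval_C, eval_cmap hB, eval_cmap hB] at h4
  exact h4

end Pool.Agent.D0H16.SM
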