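import Pool.Agent.D0H16.SM.Desc

set_option autoImplicit false

/-!
# Project SM (MP_807a54_ag): the solutions `E` of `f(E e_i) = E c(e_i)`

The generic matrix is a solution, the symmetries `E ↦ A σ(E)` permute the solutions, there are only
finitely many of them.
-/

namespace Pool.Agent.D0H16.SM

open MvPolynomial Matrix Pool.Agent.D0H90.SM

universe u

section

variable {n d : ℕ} {k : Type u} [Field k]

/-- The generic matrix with entries in `OM`. -/
noncomputable def EO (n d : ℕ) (k : Type u) [Field k] : Matrix (Fin n) (Fin n) (OM n d k) :=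
  (genE n d k).map (algebraMap (LL n d k) (OM n d k))

theorem det_genE_ne : (genE n d k).det ≠ 0 := by
  have h : genE n d k = (mvPolynomialX (Fin n) (Fin n) k).map
      ((algebraMap (PP n d k) (LL n d k)).comp
        ((rename Sum.inl : MvPolynomial (Fin n × Fin n) k →ₐ[k] PP n d k) :
          MvPolynomial (Fin n × Fin n) k →+* PP n d k)) := by
    ext i j
    simp [genE]
  rw [h, ← RingHom.mapMatrix_apply, ← RingHom.map_det]
  intro h0
  apply det_mvPolynomialX_ne_zero (Fin n) k
  have h1 := IsFractionRing.injective (PP n d k) (LL n d k) (h0.trans (map_zero _).symm)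
  exact rename_injective _ Sum.inl_injective (h1.trans (map_zero _).symm)

theorem mon_bas {R : Type*} [CommRing R] (m : Ex n d) (i : Fin n) (h : (m.1 i : ℕ) ≠ d) :
    mon m (bas i : Fin n → R) = 0 := by
  have h1 : ∃ l, l ≠ i ∧ (m.1 l : ℕ) ≠ 0 := by
    by_contra hc
    push Not at hc
    exact h ((Finset.sum_eq_single i (fun l _ hl => hc l hl) (by simp)).symm.trans m.2)
  obtain ⟨l, hl, h0⟩ := h1
  refine Finset.prod_eq_zero (Finset.mem_univ l) ?_
  have h2 : (bas i : Fin n → R) l = 0 := Pi.single_eq_of_ne hl _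
  rw [h2, zero_pow h0]

theorem mon_map {R S : Type*} [CommRing R] [CommRing S] (φ : R →+* S) (m : Ex n d)
    (x : Fin n → R) : φ (mon m x) = mon m (fun l => φ (x l)) := by
  simp [mon, map_prod]

theorem geny_bas (c : Cf n d → k) (i j : Fin n) :
    ev (geny c) (bas i) j = algebraMap k (LL n d k) (ev c (bas i) j) := by
  simp only [ev]
  rw [map_sum]
  refine Finset.sum_congr rfl fun m _ => ?_
  rw [map_mul]
  by_cases h : (m.1 i : ℕ) = d
  · congr 1
    · rw [geny, glue, dif_pos ⟨i, h⟩]
      rw [← MvPolynomial.algebraMap_eq, ← IsScalarTower.algebraMap_apply]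
    · rw [mon_map]
      congr 1
      funext l
      simp only [Pi.single_apply]
      split_ifs <;> simp
  · rw [mon_bas m i h, mon_bas m i h, map_zero, mul_zero, mul_zero]

/-- The generic matrix is a solution. -/
theorem sol_gen (hB : S_BASE.{u}) (c : Cf n d → k) : Sol c (EO n d k) := by
  obtain ⟨h1, _, h3, _⟩ := hB
  intro i
  have hu : IsUnit (genE n d k).det := isUnit_iff_ne_zero.2 det_genE_ne
  have hL : ev (genfL c) (fun l => genE n d k l i) =
      genE n d k *ᵥ fun j => algebraMap k (LL n d k) (ev c (bas i) j) := by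
    have hcol : (fun l => genE n d k l i) = genE n d k *ᵥ bas i := by
      rw [Matrix.mulVec_single_one]
      rfl
    rw [genfL, h1, hcol, Matrix.mulVec_mulVec, Matrix.nonsing_inv_mul _ hu, Matrix.one_mulVec]
    congr 1
    funext j
    exact geny_bas c i j
  have h := h3 (LL n d k) (OM n d k) (algebraMap (LL n d k) (OM n d k)) n d (genfL c)
    (fun l => genE n d k l i)
  refine (show _ = _ from h).trans ?_
  rw [hL]
  funext s
  simp only [Matrix.mulVec, dotProduct, map_sum, map_mul, EO, Matrix.map_apply]
  refine Finset.sum_congr rfl fun j _ => ?_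
  rw [← IsScalarTower.algebraMap_apply]

theorem det_EO : (EO n d k).det = algebraMap (LL n d k) (OM n d k) (genE n d k).det := by
  rw [EO, ← RingHom.mapMatrix_apply, ← RingHom.map_det]

/-- The action on the solutions. -/
theorem sol_smul (hB : S_BASE.{u}) {c : Cf n d → k} {A A' : Matrix (Fin n) (Fin n) k}
    (hA : A * A' = 1) {σ : OM n d k ≃+* OM n d k} (hσ : SymA c A A' σ)
    {E : Matrix (Fin n) (Fin n) (OM n d k)} (hE : Sol c E) :
    Sol c (A.map (algebraMap k (OM n d k)) * E.map σ) := by
  obtain ⟨h1, _, h3, _⟩ := hB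
  intro i
  have e1 := h3 (OM n d k) (OM n d k) (σ : OM n d k →+* OM n d k) n d (genf c)
    (fun l => E l i)
  have e2 : (fun a => (σ : OM n d k →+* OM n d k) (genf c a)) =
      conj (A.map (algebraMap k (OM n d k))) (A'.map (algebraMap k (OM n d k))) (genf c) :=
    funext hσ.2
  rw [e2, h1, hE i] at e1
  have e3 : (fun s => (σ : OM n d k →+* OM n d k)
      ((E *ᵥ fun j => algebraMap k (OM n d k) (ev c (bas i) j)) s)) =
      E.map σ *ᵥ fun j => algebraMap k (OM n d k) (ev c (bas i) j) := by
    funext s
    simp only [Matrix.mulVec, dotProduct, map_sum, map_mul, Matrix.map_apply]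
    refine Finset.sum_congr rfl fun j _ => ?_
    congr 1
    exact hσ.1 _
  rw [e3] at e1
  have hAA : A.map (algebraMap k (OM n d k)) * A'.map (algebraMap k (OM n d k)) = 1 := by
    rw [← Matrix.map_mul, hA]
    ext a b
    simp [Matrix.one_apply, apply_ite]
  have e4 := congrArg (fun v => A.map (algebraMap k (OM n d k)) *ᵥ v) e1
  simp only [Matrix.mulVec_mulVec] at e4
  rw [hAA, Matrix.one_mulVec] at e4
  exact e4

theorem smul_inj {A A' : Matrix (Fin n) (Fin n) k} (hA : A * A' = 1)
    (σ : OM n d k ≃+* OM n d k) :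
    Function.Injective (fun E : Matrix (Fin n) (Fin n) (OM n d k) =>
      A.map (algebraMap k (OM n d k)) * E.map σ) := by
  intro E F h
  have hA' : A' * A = 1 := mul_eq_one_comm.1 hA
  have hAA : A'.map (algebraMap k (OM n d k)) * A.map (algebraMap k (OM n d k)) = 1 := by
    rw [← Matrix.map_mul, hA']
    ext a b
    simp [Matrix.one_apply, apply_ite]
  have h1 := congrArg (fun M => A'.map (algebraMap k (OM n d k)) * M) h
  simp only [← Matrix.mul_assoc] at h1
  rw [hAA, Matrix.one_mul, Matrix.one_mul] at h1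
  ext i j
  have h2 := congrFun (congrFun h1 i) j
  exact σ.injective h2

/-- There are only finitely many solutions. -/
theorem sols_finite (hF : S_FINS.{u}) (hd : 2 ≤ d) (c : Cf n d → k) (hc : Strong (genf c)) :
    {E : Matrix (Fin n) (Fin n) (OM n d k) | Sol c E}.Finite := by
  refine (hF (OM n d k) n d hd (genf c) hc
    (Matrix.of fun j i => algebraMap k (OM n d k) (ev c (bas i) j))).subset ?_
  intro E hE i
  exact hE i

/-- The symmetries permute the finite set of solutions. -/
theorem sols_perm (hB : S_BASE.{u}) {c : Cf n d → k} {A A' : Matrix (Fin n) (Fin n) k}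
    (hA : A * A' = 1) {σ : OM n d k ≃+* OM n d k} (hσ : SymA c A A' σ)
    (Z : Finset (Matrix (Fin n) (Fin n) (OM n d k))) (hZ : ∀ E, E ∈ Z ↔ Sol c E) :
    Z.val.map (fun E => A.map (algebraMap k (OM n d k)) * E.map σ) = Z.val := by
  classical
  have hinj := smul_inj (d := d) hA σ
  have himg : Z.image (fun E => A.map (algebraMap k (OM n d k)) * E.map σ) = Z := by
    apply Finset.eq_of_subset_of_card_le
    · intro F hF
      obtain ⟨E, hE, rfl⟩ := Finset.mem_image.1 hF
      exact (hZ _).2 (sol_smul hB hA hσ ((hZ _).1 hE))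
    · rw [Finset.card_image_of_injective _ hinj]
  rw [← Finset.image_val_of_injOn hinj.injOn, himg]

end

end Pool.Agent.D0H16.SM
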