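import Pool.Agent.D0H16.SM.Sols

set_option autoImplicit false

/-!
# Project SM, module TT (MP_807a54_ag): a semi-invariant of positive weight
-/

namespace Pool.Agent.D0H16.SM

open MvPolynomial Matrix Pool.Agent.D0H90.SM

universe u

/-- Elementary symmetric functions and ring homomorphisms. -/
theorem esymm_map_hom {R S : Type*} [CommRing R] [CommRing S] (φ : R →+* S) (s : Multiset R)
    (j : ℕ) : (s.map φ).esymm j = φ (s.esymm j) := by
  simp only [Multiset.esymm, Multiset.powersetCard_map, Multiset.map_map, map_multiset_sum]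
  congr 1
  refine Multiset.map_congr rfl fun t _ => ?_
  simp [map_multiset_prod]

/-- Homogeneity of the elementary symmetric functions. -/
theorem esymm_map_mul {R : Type*} [CommRing R] (t : R) (s : Multiset R) (j : ℕ) :
    (s.map (fun x => t * x)).esymm j = t ^ j * s.esymm j := by
  simp only [Multiset.esymm, Multiset.powersetCard_map, Multiset.map_map]
  rw [← Multiset.sum_map_mul_left]
  congr 1
  refine Multiset.map_congr rfl fun u hu => ?_
  simp only [Function.comp_apply]
  rw [Multiset.prod_map_mul, Multiset.map_const', Multiset.prod_replicate,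
    (Multiset.mem_powersetCard.1 hu).2, Multiset.map_id']

section

variable {n d : ℕ} {k : Type u} [Field k]

theorem glue_rest (c : Cf n d → k) : glue c (rest c) = c := by
  funext a
  by_cases h : ∃ i, (a.2.1 i : ℕ) = d
  · rw [glue, dif_pos h]
  · rw [glue, dif_neg h]
    rfl

/-- The local ring at `glue c w` is contained in the ring of a place at `(1, w)`. -/
theorem Ov_le (hO : S_OVP.{u}) [CharZero k] (c : Cf n d → k) (w : Rest n d → k) (pl : Place w) :
    Ov c (glue c w) ≤ pl.ring := by
  rw [Ov, Subring.closure_le]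
  rintro x (⟨P, rfl⟩ | ⟨Q, hQ, rfl⟩)
  · exact (hO k n d c w pl P).1
  · exact (hO k n d c w pl Q).2.2 hQ

/-- Elements which are integral over the local ring are in the ring of the place. -/
theorem mem_of_integral (hO : S_OVP.{u}) [CharZero k] (c : Cf n d → k) (w : Rest n d → k)
    (pl : Place w) {x : OM n d k} (hx : IsIntegral (Ov c (glue c w)) x) : x ∈ pl.ring := by
  apply pl.closed
  obtain ⟨p, hp, h⟩ := hx
  refine ⟨p.map (Subring.inclusion (Ov_le hO c w pl)), hp.map _, ?_⟩
  rw [Polynomial.eval₂_map]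
  exact h

/-- The value of `det 𝓔` at `(1, w)` is 1. -/
theorem pl_det {w : Rest n d → k} (pl : Place w) :
    ∃ h : (EO n d k).det ∈ pl.ring, pl.hom ⟨_, h⟩ = 1 := by
  let M : Matrix (Fin n) (Fin n) (PP n d k) := Matrix.of fun i j => X (Sum.inl (i, j))
  have h1 : (EO n d k).det = algebraMap (LL n d k) (OM n d k)
      (algebraMap (PP n d k) (LL n d k) M.det) := by
    rw [det_EO]
    congr 1
    rw [RingHom.map_det]
    congr 1
  have h2 : evalOne w M.det = 1 := by
    rw [RingHom.map_det]
    have : (evalOne w).mapMatrix M = 1 := by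
      ext i j
      simp [M, evalOne, Matrix.one_apply]
    rw [this, Matrix.det_one]
  refine ⟨h1 ▸ pl.mem M.det, ?_⟩
  have h3 := pl.eq M.det
  rw [h2] at h3
  rw [← h3]
  congr 1
  exact Subtype.ext h1

end

/-- TT. -/
theorem t_TT : S_BASE.{u} → S_SOLI.{u} → S_FINS.{u} → S_DESC.{u} → S_PLACE.{u} → S_OVP.{u} →
    S_TT.{u} := by
  intro hB hS hF hD hP hO k _ _ _ n d hd c hc hT
  obtain ⟨hstrong, hint⟩ := hS k n d hd c c hT hc
  have hfin := sols_finite hF hd c hstrong
  let Z : Finset (Matrix (Fin n) (Fin n) (OM n d k)) := hfin.toFinset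
  have hZ : ∀ E, E ∈ Z ↔ Sol c E := by
    intro E
    simp [Z]
  let s : Multiset (OM n d k) := Z.val.map Matrix.det
  -- the elementary symmetric functions are integral
  have hdet : ∀ x ∈ s, IsIntegral (Ov c c) x := by
    intro x hx
    obtain ⟨E, hE, rfl⟩ := Multiset.mem_map.1 hx
    exact IsIntegral.det fun i j => hint E ((hZ E).1 hE) i j
  have hesymm : ∀ j, IsIntegral (Ov c c) (s.esymm j) := by
    intro j
    apply IsIntegral.multiset_sum
    intro x hx
    obtain ⟨t, ht, rfl⟩ := Multiset.mem_map.1 hx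
    apply IsIntegral.multiset_prod
    intro y hy
    exact hdet y (Multiset.mem_of_le (Multiset.mem_powersetCard.1 ht).1 hy)
  -- they are semi-invariant
  have hinv : ∀ j, ∀ (A A' : Matrix (Fin n) (Fin n) k) (σ : OM n d k ≃+* OM n d k), A * A' = 1 →
      SymA c A A' σ → algebraMap k (OM n d k) A.det ^ j * σ (s.esymm j) = s.esymm j := by
    intro j A A' σ hA hσ
    have hperm := sols_perm hB hA hσ Z hZ
    have h1 : (s.map (σ : OM n d k →+* OM n d k)).map
        (fun x => algebraMap k (OM n d k) A.det * x) = s := by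
      conv_rhs => rw [show s = Z.val.map Matrix.det from rfl, ← hperm]
      simp only [s, Multiset.map_map]
      refine Multiset.map_congr rfl fun E _ => ?_
      simp only [Function.comp_apply]
      rw [Matrix.det_mul]
      congr 1
      · rw [← RingHom.mapMatrix_apply, ← RingHom.map_det]
      · have := RingHom.map_det (σ : OM n d k →+* OM n d k) E
        exact this
    have h2 := esymm_map_mul (algebraMap k (OM n d k) A.det) (s.map (σ : OM n d k →+* OM n d k)) j
    rw [h1, esymm_map_hom] at h2
    exact h2.symm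
  have hex : ∀ j, ∃ P Q : Pol n d k, Semi j P Q ∧ eval c Q ≠ 0 ∧ eval c Q ≠ 0 ∧
      s.esymm j * thetaO c Q = thetaO c P :=
    fun j => hD k n d hd c hT c c j (s.esymm j) (hinv j) (hesymm j) (hesymm j)
  choose P Q hsemi hQ _ hPQ using hex
  by_contra hcon
  -- all values are zero
  have hzero : ∀ j, 1 ≤ j → eval c (P j) = 0 := by
    intro j hj
    by_contra h
    exact hcon ⟨j, P j, Q j, hj, hsemi j, h, hQ j⟩
  obtain ⟨pl⟩ := hP k n d (rest c)
  have hg : glue c (rest c) = c := glue_rest c
  have hmem : ∀ j, s.esymm j ∈ pl.ring := by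
    intro j
    apply mem_of_integral hO c (rest c) pl
    rw [hg]
    exact hesymm j
  have hval : ∀ j, 1 ≤ j → pl.hom ⟨s.esymm j, hmem j⟩ = 0 := by
    intro j hj
    obtain ⟨hq, hq1, _⟩ := hO k n d c (rest c) pl (Q j)
    obtain ⟨hp, hp1, _⟩ := hO k n d c (rest c) pl (P j)
    rw [hg] at hq1 hp1
    have h1 : (⟨s.esymm j, hmem j⟩ : pl.ring) * ⟨_, hq⟩ = ⟨_, hp⟩ := Subtype.ext (hPQ j)
    have h2 := congrArg pl.hom h1
    rw [map_mul, hq1, hp1, hzero j hj] at h2
    exact (mul_eq_zero.1 h2).resolve_right (hQ j)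
  obtain ⟨hdm, hd1⟩ := pl_det (d := d) pl
  have hroot : (s.map fun r => Polynomial.X + Polynomial.C r).prod.eval (-(EO n d k).det) = 0 := by
    have hm : (EO n d k).det ∈ s :=
      Multiset.mem_map.2 ⟨EO n d k, (hZ _).2 (sol_gen hB c), rfl⟩
    rw [Polynomial.eval_multiset_prod, Multiset.map_map]
    apply Multiset.prod_eq_zero
    refine Multiset.mem_map.2 ⟨_, hm, ?_⟩
    simp
  rw [Multiset.prod_X_add_C_eq_sum_esymm, Polynomial.eval_finsetSum] at hroot
  simp only [Polynomial.eval_mul, Polynomial.eval_C, Polynomial.eval_pow, Polynomial.eval_X] at hroot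
  -- the same equation in the ring of the place
  have hroot' : ∑ j ∈ Finset.range (Multiset.card s + 1), (⟨s.esymm j, hmem j⟩ : pl.ring) *
      (-⟨_, hdm⟩) ^ (Multiset.card s - j) = 0 := by
    apply Subtype.ext
    rw [AddSubmonoidClass.coe_finsetSum]
    exact hroot
  have h3 := congrArg pl.hom hroot'
  rw [map_sum, map_zero, Finset.sum_eq_single 0] at h3
  · rw [map_mul, map_pow, map_neg, hd1] at h3
    have h4 : (⟨s.esymm 0, hmem 0⟩ : pl.ring) = 1 := by
      apply Subtype.ext
      simp [Multiset.esymm]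
    rw [h4, map_one, one_mul] at h3
    exact (pow_ne_zero _ (neg_ne_zero.2 one_ne_zero)) h3
  · intro j _ hj
    rw [map_mul, hval j (Nat.one_le_iff_ne_zero.2 hj), zero_mul]
  · intro h
    exact absurd (Finset.mem_range.2 (Nat.succ_pos _)) h

end Pool.Agent.D0H16.SM
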